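import Pool.Agent.Q120.BU.Stm

/-!
# Project BU (helper120), job SER: the singular series of level `Q`, uniformly in all systems

The function `h n = ∏ 1 / log F_i(n)` is antitone, so its sum over the integers in a union of residue
classes modulo `Q` is the proportion times the sum over all integers, up to a bounded error.
-/

set_option autoImplicit false

namespace Pool.Agent.Q261.BU

open Finset Filter Polynomial Pool.Agent.Q120.BU
open scoped Topology

/-! ## sums over residue classes -/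

theorem shift_one (N : ℕ) (u h : ℕ → ℝ) (B : ℝ) (hN : 2 ≤ N) (u0 : ∀ n, 0 ≤ u n) (u1 : ∀ n, u n ≤ 1)
    (h0 : ∀ n, 2 ≤ n → 0 ≤ h n) (hB : ∀ n, 2 ≤ n → h n ≤ B) (hh : ∀ n, 2 ≤ n → h (n + 1) ≤ h n) :
    |(∑ n ∈ Ico 2 N, u (n + 1) * h n) - ∑ n ∈ Ico 2 N, u n * h n| ≤ 2 * B := by
  have e1 : (∑ n ∈ Ico 2 N, u (n + 1) * h n) - ∑ n ∈ Ico 2 N, u n * h n =
      (∑ n ∈ Ico 2 N, u (n + 1) * (h n - h (n + 1))) +
        ∑ n ∈ Ico 2 N, (u (n + 1) * h (n + 1) - u n * h n) := by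
    rw [← sum_sub_distrib, ← sum_add_distrib]
    exact sum_congr rfl fun n _ => by ring
  have e2 : ∑ n ∈ Ico 2 N, (u (n + 1) * h (n + 1) - u n * h n) = u N * h N - u 2 * h 2 :=
    sum_Ico_sub (fun n => u n * h n) hN
  have e3 : ∑ n ∈ Ico 2 N, (h (n + 1) - h n) = h N - h 2 := sum_Ico_sub h hN
  have l1 : 0 ≤ ∑ n ∈ Ico 2 N, u (n + 1) * (h n - h (n + 1)) :=
    sum_nonneg fun n hn => mul_nonneg (u0 _) (by linarith [hh n (mem_Ico.1 hn).1])
  have l2 : ∑ n ∈ Ico 2 N, u (n + 1) * (h n - h (n + 1)) ≤ h 2 - h N := by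
    have : ∑ n ∈ Ico 2 N, u (n + 1) * (h n - h (n + 1)) ≤ ∑ n ∈ Ico 2 N, -(h (n + 1) - h n) := by
      refine sum_le_sum fun n hn => ?_
      have a1 := hh n (mem_Ico.1 hn).1
      nlinarith [u1 (n + 1)]
    rw [sum_neg_distrib, e3] at this
    linarith
  rw [e1, e2, abs_le]
  have a1 := h0 N hN
  have a2 := h0 2 le_rfl
  have a3 := hB N hN
  have a4 := hB 2 le_rfl
  have b1 : 0 ≤ u N * h N := mul_nonneg (u0 _) a1
  have b2 : 0 ≤ u 2 * h 2 := mul_nonneg (u0 _) a2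
  have b3 : u N * h N ≤ h N := by nlinarith [u1 N]
  have b4 : u 2 * h 2 ≤ h 2 := by nlinarith [u1 2]
  constructor <;> linarith

theorem shift (N : ℕ) (u h : ℕ → ℝ) (B : ℝ) (hN : 2 ≤ N) (u0 : ∀ n, 0 ≤ u n) (u1 : ∀ n, u n ≤ 1)
    (h0 : ∀ n, 2 ≤ n → 0 ≤ h n) (hB : ∀ n, 2 ≤ n → h n ≤ B) (hh : ∀ n, 2 ≤ n → h (n + 1) ≤ h n)
    (a : ℕ) :
    |(∑ n ∈ Ico 2 N, u (n + a) * h n) - ∑ n ∈ Ico 2 N, u n * h n| ≤ a * (2 * B) := by
  induction a with
  | zero => simp
  | succ a ih =>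
    have h1 := shift_one N (fun n => u (n + a)) h B hN (fun n => u0 _) (fun n => u1 _) h0 hB hh
    have h2 : ∀ n, n + 1 + a = n + (a + 1) := fun n => by ring
    simp only [h2] at h1
    rw [abs_le] at h1 ih ⊢
    push_cast
    constructor <;> linarith [h1.1, h1.2, ih.1, ih.2]

theorem per_sum (Q : ℕ) (u : ℕ → ℝ) (hu : ∀ n, u (n + Q) = u n) (n : ℕ) :
    ∑ a ∈ range Q, u (n + a) = ∑ a ∈ range Q, u a := by
  induction n with
  | zero => simp
  | succ n ih =>
    have h1 := sum_range_succ (fun a => u (n + a)) Q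
    have h2 := sum_range_succ' (fun a => u (n + a)) Q
    rw [h1] at h2
    simp only [add_zero, hu] at h2
    have h3 : ∀ a, n + 1 + a = n + (a + 1) := fun a => by ring
    simp only [h3]
    linarith

theorem equi (Q N : ℕ) (u h : ℕ → ℝ) (B : ℝ) (hQ : 1 ≤ Q) (hN : 2 ≤ N) (u0 : ∀ n, 0 ≤ u n)
    (u1 : ∀ n, u n ≤ 1) (hu : ∀ n, u (n + Q) = u n)
    (h0 : ∀ n, 2 ≤ n → 0 ≤ h n) (hB : ∀ n, 2 ≤ n → h n ≤ B) (hh : ∀ n, 2 ≤ n → h (n + 1) ≤ h n) :
    |(∑ n ∈ Ico 2 N, u n * h n) - (∑ r ∈ range Q, u r) / Q * ∑ n ∈ Ico 2 N, h n| ≤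
      2 * Q * B := by
  have hQ' : (0 : ℝ) < Q := by exact_mod_cast hQ
  have hB0 : 0 ≤ B := (h0 2 le_rfl).trans (hB 2 le_rfl)
  have e1 : (∑ r ∈ range Q, u r) * ∑ n ∈ Ico 2 N, h n =
      ∑ a ∈ range Q, ∑ n ∈ Ico 2 N, u (n + a) * h n := by
    rw [sum_comm, mul_sum]
    refine sum_congr rfl fun n _ => ?_
    rw [← sum_mul, per_sum Q u hu n]
  have e2 : (Q : ℝ) * (∑ n ∈ Ico 2 N, u n * h n) = ∑ a ∈ range Q, ∑ n ∈ Ico 2 N, u n * h n := by
    rw [sum_const, card_range, nsmul_eq_mul]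
  have e3 : |(∑ r ∈ range Q, u r) * (∑ n ∈ Ico 2 N, h n) - Q * (∑ n ∈ Ico 2 N, u n * h n)| ≤
      Q * (Q * (2 * B)) := by
    rw [e1, e2, ← sum_sub_distrib]
    refine (abs_sum_le_sum_abs _ _).trans ?_
    calc _ ≤ ∑ a ∈ range Q, (Q : ℝ) * (2 * B) := by
          refine sum_le_sum fun a ha => ?_
          refine (shift N u h B hN u0 u1 h0 hB hh a).trans ?_
          have : (a : ℝ) ≤ Q := by exact_mod_cast (mem_range.1 ha).le
          exact mul_le_mul_of_nonneg_right this (by positivity)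
      _ = Q * (Q * (2 * B)) := by rw [sum_const, card_range, nsmul_eq_mul]
  have e4 : (∑ n ∈ Ico 2 N, u n * h n) - (∑ r ∈ range Q, u r) / Q * (∑ n ∈ Ico 2 N, h n) =
      -(((∑ r ∈ range Q, u r) * (∑ n ∈ Ico 2 N, h n) - Q * (∑ n ∈ Ico 2 N, u n * h n)) / Q) := by
    field_simp
    ring
  rw [e4, abs_neg, abs_div, abs_of_pos hQ', div_le_iff₀ hQ']
  calc _ ≤ _ := e3
    _ = _ := by ring

/-! ## polynomials with nonnegative coefficients -/

section poly

variable {P : ℤ[X]}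

theorem eval_nonneg (h0 : ∀ j, 0 ≤ P.coeff j) (n : ℕ) : 0 ≤ P.eval (n : ℤ) := by
  rw [eval_eq_sum_range]
  exact sum_nonneg fun j _ => mul_nonneg (h0 j) (by positivity)

theorem eval_mono (h0 : ∀ j, 0 ≤ P.coeff j) {n m : ℕ} (h : n ≤ m) :
    P.eval (n : ℤ) ≤ P.eval (m : ℤ) := by
  rw [eval_eq_sum_range, eval_eq_sum_range]
  exact sum_le_sum fun j _ => mul_le_mul_of_nonneg_left
    (pow_le_pow_left₀ (by positivity) (by exact_mod_cast h) j) (h0 j)

theorem le_eval (h0 : ∀ j, 0 ≤ P.coeff j) (h1 : 1 ≤ P.natDegree) (n : ℕ) :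
    (n : ℤ) ≤ P.eval (n : ℤ) := by
  rw [eval_eq_sum_range]
  have hl : 1 ≤ P.coeff P.natDegree := by
    have h2 : P.coeff P.natDegree ≠ 0 := by
      rw [coeff_natDegree]
      exact leadingCoeff_ne_zero.2 (by rintro rfl; simp at h1)
    have := h0 P.natDegree
    omega
  have h3 : (n : ℤ) ≤ (n : ℤ) ^ P.natDegree := by
    rcases Nat.eq_zero_or_pos n with rfl | hn
    · simp
    · exact le_self_pow₀ (by exact_mod_cast hn) (by omega)
  calc (n : ℤ) ≤ (n : ℤ) ^ P.natDegree := h3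
    _ ≤ P.coeff P.natDegree * (n : ℤ) ^ P.natDegree := le_mul_of_one_le_left (by positivity) hl
    _ ≤ _ := single_le_sum (f := fun j => P.coeff j * (n : ℤ) ^ j)
      (fun j _ => mul_nonneg (h0 j) (by positivity)) (mem_range.2 (by omega))

theorem va_eq (h0 : ∀ j, 0 ≤ P.coeff j) (n : ℕ) : ((va P n : ℕ) : ℤ) = P.eval (n : ℤ) :=
  Int.toNat_of_nonneg (eval_nonneg h0 n)

theorem le_va (h0 : ∀ j, 0 ≤ P.coeff j) (h1 : 1 ≤ P.natDegree) (n : ℕ) : n ≤ va P n := by
  have h2 := le_eval h0 h1 n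
  rw [← va_eq h0] at h2
  exact_mod_cast h2

theorem va_mono (h0 : ∀ j, 0 ≤ P.coeff j) {n m : ℕ} (h : n ≤ m) : va P n ≤ va P m := by
  have h2 := eval_mono h0 h
  rw [← va_eq h0, ← va_eq h0] at h2
  exact_mod_cast h2

theorem va_le (h0 : ∀ j, 0 ≤ P.coeff j) {g N : ℕ} {C : ℝ} (hg : P.natDegree ≤ g)
    (hc : ∀ j, |((P.coeff j : ℤ) : ℝ)| ≤ (N : ℝ) ^ C) {n : ℕ} (hN : 1 ≤ N) (hn : n ≤ N) :
    (va P n : ℝ) ≤ (g + 1) * (N : ℝ) ^ ((g : ℝ) + C) := by
  have hN' : (1 : ℝ) ≤ N := by exact_mod_cast hN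
  have e1 : (va P n : ℝ) = ∑ j ∈ range (P.natDegree + 1), ((P.coeff j : ℤ) : ℝ) * (n : ℝ) ^ j := by
    have h1 : ((va P n : ℤ) : ℝ) = ((P.eval (n : ℤ) : ℤ) : ℝ) := by rw [va_eq h0]
    rw [eval_eq_sum_range] at h1
    push_cast at h1
    exact h1
  have e2 : (N : ℝ) ^ ((g : ℝ) + C) = (N : ℝ) ^ C * (N : ℝ) ^ g := by
    rw [Real.rpow_add (by linarith), Real.rpow_natCast, mul_comm]
  have hNC : 0 ≤ (N : ℝ) ^ C := by positivity
  rw [e1, e2]
  calc _ ≤ ∑ j ∈ range (P.natDegree + 1), (N : ℝ) ^ C * (N : ℝ) ^ g := by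
        refine sum_le_sum fun j hj => ?_
        have hj' : j ≤ g := (Nat.lt_succ_iff.1 (mem_range.1 hj)).trans hg
        refine mul_le_mul ((le_abs_self _).trans (hc j)) ?_ (by positivity) hNC
        calc (n : ℝ) ^ j ≤ (N : ℝ) ^ j := pow_le_pow_left₀ (by positivity) (by exact_mod_cast hn) j
          _ ≤ (N : ℝ) ^ g := pow_le_pow_right₀ hN' hj'
    _ = (P.natDegree + 1 : ℕ) * ((N : ℝ) ^ C * (N : ℝ) ^ g) := by
        rw [sum_const, card_range, nsmul_eq_mul]
    _ ≤ (g + 1) * ((N : ℝ) ^ C * (N : ℝ) ^ g) := by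
        refine mul_le_mul_of_nonneg_right ?_ (by positivity)
        exact_mod_cast Nat.succ_le_succ hg

theorem va_coprime (h0 : ∀ j, 0 ≤ P.coeff j) (Q n : ℕ) :
    (va P (n + Q)).Coprime Q ↔ (va P n).Coprime Q := by
  have h1 : va P n ≡ va P (n + Q) [MOD Q] := by
    rw [Nat.modEq_iff_dvd, va_eq h0, va_eq h0]
    have h2 := Polynomial.sub_dvd_eval_sub ((n + Q : ℕ) : ℤ) (n : ℤ) P
    have h3 : ((n + Q : ℕ) : ℤ) - n = Q := by push_cast; ring
    rwa [h3] at h2
  unfold Nat.Coprime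
  rw [h1.gcd_eq]

theorem card_coin {R : ℤ[X]} (hne : P ≠ R) {g : ℕ} (hP : P.natDegree ≤ g) (hR : R.natDegree ≤ g)
    (h0 : ∀ j, 0 ≤ P.coeff j) (h0' : ∀ j, 0 ≤ R.coeff j) (N : ℕ) :
    ((range N).filter (fun n => va P n = va R n)).card ≤ g := by
  classical
  have h1 : ((range N).filter (fun n => va P n = va R n)).card ≤ (P - R).roots.toFinset.card := by
    refine card_le_card_of_injOn (fun n => (n : ℤ)) (fun n hn => ?_) fun a _ b _ h =>
      Int.ofNat_inj.1 h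
    have h2 : va P n = va R n := (mem_filter.1 hn).2
    simp only [Multiset.mem_toFinset, SetLike.mem_coe]
    rw [mem_roots (sub_ne_zero.2 hne), IsRoot.def, eval_sub, ← va_eq h0, ← va_eq h0', h2, sub_self]
  refine h1.trans ((Multiset.toFinset_card_le _).trans ((card_roots' _).trans ?_))
  exact (natDegree_sub_le_of_le hP hR).trans (by simp)

end poly

/-! ## the model -/

section model

variable {k : ℕ} {F : Fin k → ℤ[X]}

theorem ratio_ge (Q : ℕ) (hQ : 1 ≤ Q) : 1 ≤ (Q : ℝ) / Nat.totient Q := by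
  have h1 : (0 : ℝ) < Nat.totient Q := by exact_mod_cast Nat.totient_pos.2 hQ
  rw [one_le_div h1]
  exact_mod_cast Nat.totient_le Q

theorem lv_nonneg (Q n : ℕ) : 0 ≤ lv Q n := by
  classical
  unfold lv
  split_ifs with h
  · have : 0 ≤ Real.log n := Real.log_natCast_nonneg n
    exact le_min (by norm_num) (by positivity)
  · exact le_rfl

theorem lv_le_one (Q n : ℕ) : lv Q n ≤ 1 := by
  classical
  unfold lv
  split_ifs with h
  · exact (min_le_left _ _).trans (by norm_num)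
  · exact zero_le_one

theorem lv_large {Q v : ℕ} (h3 : 3 ≤ v) (h : 2 * ((Q : ℝ) / Nat.totient Q) ≤ Real.log v) :
    lv Q v = (if v.Coprime Q then 1 else 0) * ((Q : ℝ) / Nat.totient Q * (1 / Real.log v)) := by
  classical
  unfold lv
  by_cases hc : v.Coprime Q
  · have h4 : v ∈ UQ Q := ⟨h3, hc⟩
    rw [if_pos h4, if_pos hc, one_mul]
    have hl : 0 < Real.log v := Real.log_pos (by exact_mod_cast (show 1 < v by omega))
    rw [min_eq_right]
    · rw [mul_one_div]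
    · rw [div_le_iff₀ hl]
      linarith
  · have h4 : v ∉ UQ Q := fun h5 => hc h5.2
    rw [if_neg h4, if_neg hc, zero_mul]

/-- the function `∏ 1 / log F_i(n)` -/
noncomputable def hf (F : Fin k → ℤ[X]) (n : ℕ) : ℝ := ∏ i, 1 / Real.log (va (F i) n)

theorem hf_nonneg (n : ℕ) : 0 ≤ hf F n :=
  prod_nonneg fun i _ => div_nonneg zero_le_one (Real.log_natCast_nonneg _)

variable (h0 : ∀ i j, 0 ≤ (F i).coeff j) (h1 : ∀ i, 1 ≤ (F i).natDegree)

include h0 h1

theorem log_pos {n : ℕ} (hn : 2 ≤ n) (i : Fin k) : Real.log 2 ≤ Real.log (va (F i) n) := by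
  refine Real.log_le_log (by norm_num) ?_
  exact_mod_cast hn.trans (le_va (h0 i) (h1 i) n)

theorem hf_le {n : ℕ} (hn : 2 ≤ n) : hf F n ≤ (1 / Real.log 2) ^ k := by
  have hl : 0 < Real.log 2 := Real.log_pos (by norm_num)
  calc hf F n ≤ ∏ _i : Fin k, 1 / Real.log 2 :=
        prod_le_prod (fun i _ => div_nonneg zero_le_one (Real.log_natCast_nonneg _))
          fun i _ => one_div_le_one_div_of_le hl (log_pos h0 h1 hn i)
    _ = _ := by rw [prod_const, card_univ, Fintype.card_fin]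

theorem hf_anti {n : ℕ} (hn : 2 ≤ n) : hf F (n + 1) ≤ hf F n := by
  refine prod_le_prod (fun i _ => div_nonneg zero_le_one (Real.log_natCast_nonneg _)) fun i _ => ?_
  have hl : 0 < Real.log 2 := Real.log_pos (by norm_num)
  refine one_div_le_one_div_of_le (hl.trans_le (log_pos h0 h1 hn i)) (Real.log_le_log ?_ ?_)
  · have := hn.trans (le_va (h0 i) (h1 i) n)
    exact_mod_cast (show 0 < va (F i) n by omega)
  · exact_mod_cast va_mono (h0 i) (Nat.le_succ n)

theorem hf_ge {g N : ℕ} {C : ℝ} (hC : 0 < C) (hg : ∀ i, (F i).natDegree ≤ g)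
    (hc : ∀ i j, |(((F i).coeff j : ℤ) : ℝ)| ≤ (N : ℝ) ^ C) (hN : 1 ≤ N)
    (hlog : Real.log ((g : ℝ) + 1) ≤ Real.log N) {n : ℕ} (hn : 2 ≤ n) (hnN : n ≤ N) :
    (1 / ((g + C + 1) * Real.log N)) ^ k ≤ hf F n := by
  have hl : 0 < Real.log 2 := Real.log_pos (by norm_num)
  have hN' : (1 : ℝ) ≤ N := by exact_mod_cast hN
  have hL0 : 0 ≤ Real.log N := Real.log_nonneg hN'
  calc (1 / ((g + C + 1) * Real.log N)) ^ k = ∏ _i : Fin k, 1 / ((g + C + 1) * Real.log N) := by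
        rw [prod_const, card_univ, Fintype.card_fin]
    _ ≤ hf F n := by
        refine prod_le_prod (fun i _ => by positivity) fun i _ => ?_
        refine one_div_le_one_div_of_le (hl.trans_le (log_pos h0 h1 hn i)) ?_
        have h2 := va_le (h0 i) (hg i) (hc i) hN hnN
        have h3 : 0 < (va (F i) n : ℝ) := by
          have := hn.trans (le_va (h0 i) (h1 i) n)
          exact_mod_cast (show 0 < va (F i) n by omega)
        have h4 := Real.log_le_log h3 h2
        rw [Real.log_mul (by positivity) (by positivity), Real.log_rpow (by linarith)] at h4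
        linarith

open Classical in
/-- the indicator function of the good residue classes -/
noncomputable def uf {k : ℕ} (Q : ℕ) (F : Fin k → ℤ[X]) (n : ℕ) : ℝ :=
  if ∀ i, (va (F i) n).Coprime Q then 1 else 0

omit h0 h1 in
theorem uf_nonneg (Q n : ℕ) : 0 ≤ uf Q F n := by
  unfold uf
  split_ifs <;> norm_num

omit h0 h1 in
theorem uf_le (Q n : ℕ) : uf Q F n ≤ 1 := by
  unfold uf
  split_ifs <;> norm_num

omit h1 in
theorem uf_per (Q n : ℕ) : uf Q F (n + Q) = uf Q F n := by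
  unfold uf
  simp only [va_coprime (h0 _) Q n]

omit h0 h1 in
theorem uf_sum (Q : ℕ) : (∑ r ∈ range Q, uf Q F r) / Q * ((Q : ℝ) / Nat.totient Q) ^ k = SS Q F := by
  classical
  unfold SS uf
  rw [sum_boole]

/-- main comparison -/
theorem comp_one {Q n n₁ : ℕ} (hn₁ : 3 ≤ n₁)
    (hlog : 2 * ((Q : ℝ) / Nat.totient Q) ≤ Real.log n₁) (hn : n₁ ≤ n)
    (hinj : ∀ i j, va (F i) n = va (F j) n → i = j) :
    ∏ v ∈ vals F n, lv Q v = ((Q : ℝ) / Nat.totient Q) ^ k * (uf Q F n * hf F n) := by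
  classical
  have hn0 : (0 : ℝ) < n₁ := by exact_mod_cast (show 0 < n₁ by omega)
  have e1 : ∏ v ∈ vals F n, lv Q v = ∏ i, lv Q (va (F i) n) := by
    unfold vals
    exact prod_image fun i _ j _ h => hinj i j h
  have e2 : ∀ i, lv Q (va (F i) n) = (if (va (F i) n).Coprime Q then 1 else 0) *
      ((Q : ℝ) / Nat.totient Q * (1 / Real.log (va (F i) n))) := by
    intro i
    have h2 := le_va (h0 i) (h1 i) n
    refine lv_large (by omega) (hlog.trans (Real.log_le_log hn0 ?_))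
    exact_mod_cast hn.trans h2
  rw [e1, prod_congr rfl fun i _ => e2 i, prod_mul_distrib, prod_mul_distrib, prod_const, card_univ,
    Fintype.card_fin]
  have e3 : ∏ i : Fin k, (if (va (F i) n).Coprime Q then (1 : ℝ) else 0) = uf Q F n := by
    unfold uf
    rw [Fintype.prod_boole]
    congr!
  rw [e3]
  unfold hf
  ring

theorem comp {Q g n₁ : ℕ} (hQ : 1 ≤ Q) (hn₁ : 3 ≤ n₁) (hg : ∀ i, (F i).natDegree ≤ g)
    (hFi : Function.Injective F)
    (hlog : 2 * ((Q : ℝ) / Nat.totient Q) ≤ Real.log n₁) (N : ℕ) :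
    |ex (lv Q) F N - ((Q : ℝ) / Nat.totient Q) ^ k * ∑ n ∈ Ico 2 N, uf Q F n * hf F n| ≤
      (n₁ + k ^ 2 * g) * (1 + ((Q : ℝ) / Nat.totient Q) ^ k * (1 / Real.log 2) ^ k) := by
  classical
  have hl : 0 < Real.log 2 := Real.log_pos (by norm_num)
  have hq := ratio_ge Q hQ
  set q : ℝ := (Q : ℝ) / Nat.totient Q with hqd
  have hIco : Ico 2 N = (range N).filter (fun n => 2 ≤ n) := by
    ext n
    simp only [mem_Ico, mem_filter, mem_range]
    exact and_comm
  have e1 : ex (lv Q) F N - q ^ k * ∑ n ∈ Ico 2 N, uf Q F n * hf F n =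
      ∑ n ∈ range N, ((∏ v ∈ vals F n, lv Q v) -
        if 2 ≤ n then q ^ k * (uf Q F n * hf F n) else 0) := by
    rw [sum_sub_distrib, ← sum_filter, ← hIco, ← mul_sum]
    rfl
  set Bad : Finset ℕ := (range N).filter (fun n => n < n₁ ∨ ∃ i j, i ≠ j ∧ va (F i) n = va (F j) n)
    with hBad
  have e2 : ∑ n ∈ range N, ((∏ v ∈ vals F n, lv Q v) -
      if 2 ≤ n then q ^ k * (uf Q F n * hf F n) else 0) =
      ∑ n ∈ Bad, ((∏ v ∈ vals F n, lv Q v) - if 2 ≤ n then q ^ k * (uf Q F n * hf F n) else 0) := by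
    symm
    refine sum_subset (filter_subset _ _) fun n hn hnB => ?_
    rw [hBad, mem_filter, not_and, not_or] at hnB
    obtain ⟨h2, h3⟩ := hnB hn
    push Not at h2 h3
    rw [if_pos (by omega), comp_one h0 h1 hn₁ hlog h2 fun i j h => by
      by_contra hne
      exact h3 i j hne h, sub_self]
  have hcard : (Bad.card : ℝ) ≤ n₁ + k ^ 2 * g := by
    have h2 : Bad ⊆ range n₁ ∪ ((univ : Finset (Fin k × Fin k)).filter (fun p => p.1 ≠ p.2)).biUnion
        (fun p => (range N).filter (fun n => va (F p.1) n = va (F p.2) n)) := by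
      intro n hn
      rw [hBad, mem_filter] at hn
      rw [mem_union, mem_biUnion]
      rcases hn.2 with h3 | ⟨i, j, h3, h4⟩
      · exact Or.inl (mem_range.2 h3)
      · exact Or.inr ⟨(i, j), mem_filter.2 ⟨mem_univ _, h3⟩, mem_filter.2 ⟨hn.1, h4⟩⟩
    have h3 : Bad.card ≤ n₁ + k ^ 2 * g := by
      refine (card_le_card h2).trans ((card_union_le _ _).trans ?_)
      rw [card_range]
      refine Nat.add_le_add_left ?_ _
      refine card_biUnion_le.trans ?_
      calc _ ≤ ∑ _p ∈ (univ : Finset (Fin k × Fin k)).filter (fun p => p.1 ≠ p.2), g := by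
            refine sum_le_sum fun p hp => ?_
            have h4 := (mem_filter.1 hp).2
            exact card_coin (fun h => h4 (hFi h)) (hg _) (hg _) (h0 _) (h0 _) N
        _ ≤ k ^ 2 * g := by
            rw [sum_const, smul_eq_mul]
            refine Nat.mul_le_mul_right _ ?_
            refine (card_le_card (filter_subset _ _)).trans ?_
            rw [card_univ, Fintype.card_prod, Fintype.card_fin, sq]
    exact_mod_cast h3
  have hterm : ∀ n, |(∏ v ∈ vals F n, lv Q v) -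
      if 2 ≤ n then q ^ k * (uf Q F n * hf F n) else 0| ≤ 1 + q ^ k * (1 / Real.log 2) ^ k := by
    intro n
    have t1 : 0 ≤ ∏ v ∈ vals F n, lv Q v := prod_nonneg fun v _ => lv_nonneg Q v
    have t2 : ∏ v ∈ vals F n, lv Q v ≤ 1 := prod_le_one (fun v _ => lv_nonneg Q v) fun v _ => lv_le_one Q v
    have t3 : 0 ≤ q ^ k * (1 / Real.log 2) ^ k := by positivity
    split_ifs with h2
    · have t4 : 0 ≤ uf Q F n * hf F n := mul_nonneg (uf_nonneg Q n) (hf_nonneg n)
      have t5 : uf Q F n * hf F n ≤ (1 / Real.log 2) ^ k := by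
        calc uf Q F n * hf F n ≤ 1 * hf F n := mul_le_mul_of_nonneg_right (uf_le Q n) (hf_nonneg n)
          _ = hf F n := one_mul _
          _ ≤ _ := hf_le h0 h1 h2
      have t6 : 0 ≤ q ^ k * (uf Q F n * hf F n) := by positivity
      have t7 : q ^ k * (uf Q F n * hf F n) ≤ q ^ k * (1 / Real.log 2) ^ k :=
        mul_le_mul_of_nonneg_left t5 (by positivity)
      rw [abs_le]
      constructor <;> linarith
    · rw [sub_zero, abs_of_nonneg t1]
      linarith
  rw [e1, e2]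
  refine (abs_sum_le_sum_abs _ _).trans ((sum_le_sum fun n _ => hterm n).trans ?_)
  rw [sum_const, nsmul_eq_mul]
  exact mul_le_mul_of_nonneg_right hcard (by positivity)

end model

/-- **SER** -/
theorem t_SER : J_SER := by
  intro Q k g C hQ hk hg hC ε hε
  have hl : 0 < Real.log 2 := Real.log_pos (by norm_num)
  set q : ℝ := (Q : ℝ) / Nat.totient Q with hqd
  have hq : 1 ≤ q := ratio_ge Q hQ
  obtain ⟨n₁, hn₁⟩ : ∃ n₁ : ℕ, 3 ≤ n₁ ∧ 2 * q ≤ Real.log n₁ := by
    obtain ⟨m, hm⟩ := exists_nat_gt (Real.exp (2 * q))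
    refine ⟨max 3 m, le_max_left _ _, ?_⟩
    rw [← Real.log_exp (2 * q)]
    refine Real.log_le_log (Real.exp_pos _) (hm.le.trans ?_)
    exact_mod_cast le_max_right 3 m
  set K₀ : ℝ := (n₁ + k ^ 2 * g) * (1 + q ^ k * (1 / Real.log 2) ^ k) +
    q ^ k * (2 * Q * (1 / Real.log 2) ^ k) with hK
  set c : ℝ := 1 / (2 * (g + C + 1) ^ k) with hc
  have hgC : 0 < (g : ℝ) + C + 1 := by positivity
  have hc0 : 0 < c := by positivity
  refine ⟨c, hc0, ?_⟩
  have hlim : ∀ᶠ N : ℕ in atTop, K₀ ≤ ε * (c * (N / Real.log N ^ k)) := by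
    have h1 : (fun x : ℝ => Real.log x ^ k) =o[atTop] (fun x : ℝ => x) :=
      Real.isLittleO_pow_log_id_atTop
    have h2 := h1.comp_tendsto tendsto_natCast_atTop_atTop
    have hK1 : 0 < K₀ + 1 := by positivity
    have h3 := h2.bound (show 0 < ε * c / (K₀ + 1) by positivity)
    filter_upwards [h3, eventually_ge_atTop 2] with N hN hN2
    simp only [Function.comp_apply] at hN
    have hlN : 0 < Real.log N := Real.log_pos (by exact_mod_cast hN2)
    rw [Real.norm_of_nonneg (by positivity), Real.norm_of_nonneg (Nat.cast_nonneg N)] at hN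
    have h4 : (K₀ + 1) * Real.log N ^ k ≤ ε * c * N := by
      have := mul_le_mul_of_nonneg_left hN hK1.le
      calc (K₀ + 1) * Real.log N ^ k ≤ _ := this
        _ = ε * c * N := by field_simp
    have h5 : K₀ + 1 ≤ ε * c * N / Real.log N ^ k := by
      rw [le_div_iff₀ (by positivity)]
      exact h4
    calc K₀ ≤ K₀ + 1 := by linarith
      _ ≤ _ := h5
      _ = ε * (c * (N / Real.log N ^ k)) := by ring
  filter_upwards [hlim, eventually_ge_atTop 4, eventually_ge_atTop (g + 1)] with N hN hN4 hNg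
  intro F hF h0
  have h1 := hF.one_le
  have hN1 : 1 ≤ N := by omega
  have hNr : (4 : ℝ) ≤ N := by exact_mod_cast hN4
  have hlN : 0 < Real.log N := Real.log_pos (by linarith)
  have hlog : Real.log ((g : ℝ) + 1) ≤ Real.log N :=
    Real.log_le_log (by positivity) (by exact_mod_cast hNg)
  have hLI : LI F N = ∑ n ∈ Ico 2 N, hf F n := rfl
  have hlow : c * (N / Real.log N ^ k) ≤ LI F N := by
    rw [hLI]
    calc c * (N / Real.log N ^ k) = (N / 2) * (1 / ((g + C + 1) * Real.log N)) ^ k := by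
          rw [hc, div_pow, one_pow, mul_pow]
          field_simp
      _ ≤ (N - 2) * (1 / ((g + C + 1) * Real.log N)) ^ k :=
          mul_le_mul_of_nonneg_right (by linarith) (by positivity)
      _ = ∑ _n ∈ Ico 2 N, (1 / ((g + C + 1) * Real.log N)) ^ k := by
          rw [sum_const, Nat.card_Ico, nsmul_eq_mul, Nat.cast_sub (by omega)]
          norm_num
      _ ≤ _ := by
          refine sum_le_sum fun n hn => ?_
          obtain ⟨h2, h3⟩ := mem_Ico.1 hn
          exact hf_ge h0 h1 hC hF.le hF.coeff hN1 hlog h2 h3.le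
  refine ⟨?_, hlow⟩
  have c1 := comp h0 h1 hQ hn₁.1 hF.le hF.inj hn₁.2 N
  have c2 := equi Q N (uf Q F) (hf F) ((1 / Real.log 2) ^ k) hQ (by omega) (uf_nonneg Q)
    (uf_le Q) (uf_per h0 Q) (fun n _ => hf_nonneg n) (fun n hn => hf_le h0 h1 hn)
    (fun n hn => hf_anti h0 h1 hn)
  have c3 : |q ^ k * (∑ n ∈ Ico 2 N, uf Q F n * hf F n) - SS Q F * LI F N| ≤
      q ^ k * (2 * Q * (1 / Real.log 2) ^ k) := by
    rw [← uf_sum Q (F := F), hLI]
    have e1 : q ^ k * (∑ n ∈ Ico 2 N, uf Q F n * hf F n) -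
        (∑ r ∈ range Q, uf Q F r) / Q * ((Q : ℝ) / Nat.totient Q) ^ k * ∑ n ∈ Ico 2 N, hf F n =
        q ^ k * ((∑ n ∈ Ico 2 N, uf Q F n * hf F n) -
          (∑ r ∈ range Q, uf Q F r) / Q * ∑ n ∈ Ico 2 N, hf F n) := by
      rw [hqd]
      ring
    rw [e1, abs_mul, abs_of_nonneg (by positivity : 0 ≤ q ^ k)]
    exact mul_le_mul_of_nonneg_left c2 (by positivity)
  calc |ex (lv Q) F N - SS Q F * LI F N| ≤ K₀ := by
        have := abs_sub_le (ex (lv Q) F N) (q ^ k * ∑ n ∈ Ico 2 N, uf Q F n * hf F n)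
          (SS Q F * LI F N)
        linarith
    _ ≤ ε * (c * (N / Real.log N ^ k)) := hN
    _ ≤ ε * LI F N := mul_le_mul_of_nonneg_left hlow hε.le

end Pool.Agent.Q261.BU
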